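import Pool.Agent.Helper6_Eng.Stmts

/-!
Squad ENG (MP_da8eb3_al), Part F, modules FBR, FAB, FFIG: the three tricks in abstract groups.
-/

set_option autoImplicit false

namespace Pool.Agent.Eng.H53

open Pool.Agent.Eng

/-- the Engel map commutes with conjugation by elements commuting with `y` -/
theorem eng_conj {G : Type} [Group G] {y g x : G} (h : g * y = y * g) :
    eng y (g * x * g⁻¹) = g * eng y x * g⁻¹ := by
  have h1 : g⁻¹ * y = y * g⁻¹ := by
    rw [inv_mul_eq_iff_eq_mul, ← mul_assoc, h, mul_inv_cancel_right]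
  have h2 : g⁻¹ * y⁻¹ = y⁻¹ * g⁻¹ := by
    rw [← mul_inv_rev, ← mul_inv_rev, h]
  have h3 : g⁻¹ * y⁻¹ * g = y⁻¹ := by
    rw [h2, inv_mul_cancel_right]
  unfold eng
  calc (g * x * g⁻¹)⁻¹ * y⁻¹ * (g * x * g⁻¹) * y
      = g * x⁻¹ * (g⁻¹ * y⁻¹ * g) * x * (g⁻¹ * y) := by group
    _ = g * (x⁻¹ * y⁻¹ * x * y) * g⁻¹ := by rw [h3, h1]; group

theorem iter_conj {G : Type} [Group G] {y g x : G} (h : g * y = y * g)
    (hx : eng y x = g * x * g⁻¹) (m : ℕ) : (eng y)^[m] x = g ^ m * x * (g ^ m)⁻¹ := by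
  induction m with
  | zero => simp
  | succ m ih =>
    have hc : g ^ m * y = y * g ^ m := (Commute.pow_left (h : Commute g y) m)
    rw [Function.iterate_succ_apply', ih, eng_conj hc, hx, pow_succ]
    group

theorem comm_of_conj_eq {G : Type} [Group G] {g x : G} {r d : ℕ}
    (h : g ^ r * x * (g ^ r)⁻¹ = g ^ (r + d) * x * (g ^ (r + d))⁻¹) : x * g ^ d = g ^ d * x := by
  rw [pow_add] at h
  have h1 : x = g ^ d * x * (g ^ d)⁻¹ := by
    have := congrArg (fun t => (g ^ r)⁻¹ * t * g ^ r) h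
    simpa [mul_assoc] using this
  calc x * g ^ d = g ^ d * x * (g ^ d)⁻¹ * g ^ d := by rw [← h1]
    _ = g ^ d * x := by group

/-- FBR -/
theorem fbr : BraidStmt := by
  intro G _ Z _ w z N hb hN d hd hlaw
  apply hN d hd
  obtain ⟨r, hr⟩ := hlaw
  set W : G ⧸ Z := QuotientGroup.mk w with hW
  set X : G ⧸ Z := QuotientGroup.mk z with hX
  have hb' : X * W * X = W * X * W := by
    rw [hW, hX, ← QuotientGroup.mk_mul, ← QuotientGroup.mk_mul, ← QuotientGroup.mk_mul,
      ← QuotientGroup.mk_mul, hb]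
  have hx : eng W⁻¹ (X * W⁻¹) = W ^ 2 * (X * W⁻¹) * (W ^ 2)⁻¹ := by
    have h1 : X⁻¹ * (W * X) = W * X * W⁻¹ := by
      rw [inv_mul_eq_iff_eq_mul, eq_comm, ← mul_assoc, mul_inv_eq_iff_eq_mul, ← mul_assoc, hb']
    unfold eng
    calc (X * W⁻¹)⁻¹ * W⁻¹⁻¹ * (X * W⁻¹) * W⁻¹ = W * (X⁻¹ * (W * X)) * W⁻¹ * W⁻¹ := by group
      _ = W ^ 2 * (X * W⁻¹) * (W ^ 2)⁻¹ := by rw [h1, pow_two]; group
  have hc : W ^ 2 * W⁻¹ = W⁻¹ * W ^ 2 := by group
  have h2 := hr (X * W⁻¹) W⁻¹
  rw [iter_conj hc hx, iter_conj hc hx] at h2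
  have h3 := comm_of_conj_eq h2
  rw [← pow_mul] at h3
  have h4 : X * W ^ (2 * d) = W ^ (2 * d) * X := by
    calc X * W ^ (2 * d) = X * W⁻¹ * W ^ (2 * d) * W := by group
      _ = W ^ (2 * d) * X := by rw [h3]; group
  have h5 : (QuotientGroup.mk (z * w ^ (2 * d) * z⁻¹ * (w ^ (2 * d))⁻¹) : G ⧸ Z) = 1 := by
    rw [QuotientGroup.mk_mul, QuotientGroup.mk_mul, QuotientGroup.mk_mul, QuotientGroup.mk_inv,
      QuotientGroup.mk_inv, QuotientGroup.mk_pow, ← hW, ← hX, h4]
    group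
  exact (QuotientGroup.eq_one_iff _).1 h5

/-- FFIG -/
theorem ffig : FigStmt := by
  intro G _ Z _ x y N hb hN d hd hlaw
  apply hN d hd
  obtain ⟨r, hr⟩ := hlaw
  set Y : G ⧸ Z := QuotientGroup.mk y with hY
  set X : G ⧸ Z := QuotientGroup.mk x with hX
  have hb' : eng Y (eng Y X) = Y⁻¹ * X * Y := by
    have := congrArg (QuotientGroup.mk : G → G ⧸ Z) hb
    simpa [eng, hY, hX] using this
  have key : ∀ m : ℕ, (eng Y)^[2 * m] X = Y⁻¹ ^ m * X * (Y⁻¹ ^ m)⁻¹ := by
    intro m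
    induction m with
    | zero => simp
    | succ m ih =>
      have hc : Y⁻¹ ^ m * Y = Y * Y⁻¹ ^ m := by group
      have e : 2 * (m + 1) = (2 * m + 1) + 1 := by ring
      rw [e, Function.iterate_succ_apply', Function.iterate_succ_apply', ih, eng_conj hc,
        eng_conj hc, hb', pow_succ]
      group
  have h1 : (eng Y)^[2 * r] X = (eng Y)^[2 * (r + d)] X := by
    have a1 : ∀ s, r ≤ s → (eng Y)^[s] X = (eng Y)^[s + d] X := by
      intro s hs
      obtain ⟨t, rfl⟩ := Nat.exists_eq_add_of_le hs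
      have := congrArg ((eng Y)^[t]) (hr X Y)
      rw [← Function.iterate_add_apply, ← Function.iterate_add_apply] at this
      rw [show r + t = t + r by ring, show t + r + d = t + (r + d) by ring]
      exact this
    rw [a1 (2 * r) (by omega), a1 (2 * r + d) (by omega)]
    congr 1
    rw [show 2 * r + d + d = 2 * (r + d) by ring]
  rw [key, key] at h1
  have h3 := comm_of_conj_eq h1
  have h4 : X * Y ^ d = Y ^ d * X := by
    rw [inv_pow] at h3
    have := congrArg (fun t => Y ^ d * t * Y ^ d) h3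
    simpa [mul_assoc] using this.symm
  have h5 : (QuotientGroup.mk (x * y ^ d * x⁻¹ * (y ^ d)⁻¹) : G ⧸ Z) = 1 := by
    rw [QuotientGroup.mk_mul, QuotientGroup.mk_mul, QuotientGroup.mk_mul, QuotientGroup.mk_inv,
      QuotientGroup.mk_inv, QuotientGroup.mk_pow, ← hX, ← hY, h4]
    group
  exact (QuotientGroup.eq_one_iff _).1 h5

/-- FAB -/
theorem fab : AbStmt := by
  intro G _ Z _ M _ f y T hf hT d hlaw
  obtain ⟨r, hr⟩ := hlaw
  refine ⟨r, ?_⟩
  have hiter : ∀ (s : ℕ) (m : M), (eng (QuotientGroup.mk y : G ⧸ Z))^[s]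
      (QuotientGroup.mk (f (Multiplicative.ofAdd m))) =
      QuotientGroup.mk (f (Multiplicative.ofAdd (((T - 1) ^ s) m))) := by
    intro s
    induction s with
    | zero => intro m; simp
    | succ s ih =>
      intro m
      rw [Function.iterate_succ_apply', ih]
      set n := ((T - 1) ^ s) m with hn
      have h1 : ((T - 1) ^ (s + 1)) m = T n - n := by
        rw [pow_succ']
        show (T - 1) (((T - 1) ^ s) m) = T n - n
        rw [← hn]
        show T n - (1 : AddMonoid.End M) n = T n - n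
        rfl
      rw [h1]
      have h2 : eng y (f (Multiplicative.ofAdd n)) = f (Multiplicative.ofAdd (T n - n)) := by
        unfold eng
        rw [mul_assoc, mul_assoc, ← mul_assoc y⁻¹, hT n, ← map_inv, ← map_mul]
        congr 1
        rw [← ofAdd_neg, ← ofAdd_add]
        congr 1
        abel
      have h3 : eng (QuotientGroup.mk y : G ⧸ Z) (QuotientGroup.mk (f (Multiplicative.ofAdd n))) =
          QuotientGroup.mk (eng y (f (Multiplicative.ofAdd n))) := by
        unfold eng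
        rfl
      rw [h3, h2]
  ext m
  have h1 := hr (QuotientGroup.mk (f (Multiplicative.ofAdd m))) (QuotientGroup.mk y)
  rw [hiter, hiter, eq_comm, QuotientGroup.eq, ← map_inv, ← map_mul, ← ofAdd_neg,
    ← ofAdd_add] at h1
  have h2 := hf _ h1
  rw [neg_add_eq_zero] at h2
  exact h2

end Pool.Agent.Eng.H53
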